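import Mathlib
import Pool.Agent.H895.AP.Coarse
import Pool.Agent.H895.AP.Large

set_option autoImplicit false

/-!
# Additive equations over `F_p(t)`: from arbitrary valued fields to `F_p((t))`

Let `T` be the following set of axioms for a valued field `L` of characteristic `p` with a
distinguished element `t`: `v(t)` is the smallest positive value, and the residue field is `F_p`.
(`L` need not be henselian or defectless, and its value group may be any ordered abelian group with
a smallest positive element.)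

(2) `F_p((t))` with the valuation ring `F_p[[t]]` is a model of `T`, and for `E = F_p(t)`,
`F = F_p((t))` the hypothesis of (1) below is satisfied.
Let `V` be the valuation ring of a model `L` of `T`. Consider a system of equations
`∑_j ∑_i a_kji x_j^(p^i) = c_k(y_1, …, y_l)` (`k = 1, …, m`), `h_s(y_1, …, y_l) = 0`
with coefficients in `F_p(t)`, which is additive in the variables `x_j`, while `c_k` and `h_s` are
arbitrary polynomials. Let `(x, y)` be a solution in `L` with `y_1, …, y_l` in `V` (no condition is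
imposed on the `x_j`). Then there is a solution `(x', y')` in `F_p((t))` with `y'_1, …, y'_l` in
`F_p[[t]]`. Moreover, `y_i` is in `t^N V` if and only if `y'_i` is in `t^N F_p[[t]]`, for all `i` and
`N`, and for given `M` and finitely many given additive forms `B_r(x) = ∑_j ∑_i b_rji x_j^(p^i)` over
`F_p(t)` the solution can be chosen such that, for all integers `N ≥ -M`, `B_r(x)` is in `t^N V` if
and only if `B_r(x')` is in `t^N F_p[[t]]`. So conditions `v(y_i) ≥ N v(t)`, `v(y_i) < N v(t)`,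
`v(B(x)) ≥ N v(t)` and `v(B(x)) < N v(t)` may be added to the system.

Hence a sentence which says that such a system, with such conditions, has a solution is true in
`F_p((t))` if and only if it is true in some model of `T`, and if it is false in `F_p((t))` then its
negation is a consequence of `T`.

(1) The general theorem: Let `E ⊆ F` be fields of characteristic `p` with a common `p`-basis `t`,
that is, `F` is the direct sum of the `t^i F^p`, `0 ≤ i < p`, and `E` is the sum of the `t^i E^p`.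
Let `L` be a field which contains `E`, with a valuation ring `O` which contains `E` and with a
homomorphism `ρ : O → F` over `E` whose kernel contains the maximal ideal of `O`. If a system
`∑_j ∑_i a_kji x_j^(p^i) = c_k` with coefficients `a_kji` in `E` and `c_k` in `O` is solvable in `L`
then `∑_j ∑_i a_kji x_j^(p^i) = ρ(c_k)` is solvable in `F`.

Proof of (1).  If some `x_j` are not in `O` then consider the terms `a_kji x_j^(p^i)` of largest
possible value. They cancel, and so the residues of suitable quotients satisfy an additive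
homogeneous relation over `F`, for all `k` simultaneously. Using the common `p`-basis one finds such a
relation over `E`, and with it an invertible substitution over `E` which lowers the degree of the
system in one of the variables.
-/

namespace Pool.Agent.Results.MP_db9079_lc.AdditiveSystems

open scoped RatFunc LaurentSeries WithZero

/-- `t` is a common `p`-basis of the fields `E ⊆ F`: every element of `E` is of the form
`∑ t^i c_i^p`, `0 ≤ i < p`, with `c_i` in `E`, every element of `F` is of this form with `c_i` in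
`F`, and `∑ t^i c_i^p = 0` with `c_i` in `F` implies that all `c_i` are `0` -/
def CommonPBasis (p : ℕ) (E F : Type) [Field E] [Field F] [Algebra E F] (t : E) : Prop :=
  (∀ a : E, ∃ c : Fin p → E, a = ∑ i : Fin p, t ^ (i : ℕ) * c i ^ p) ∧
  (∀ y : F, ∃ c : Fin p → F, y = ∑ i : Fin p, algebraMap E F t ^ (i : ℕ) * c i ^ p) ∧
  ∀ c : Fin p → F, ∑ i : Fin p, algebraMap E F t ^ (i : ℕ) * c i ^ p = 0 → c = 0

/-- the element `t` of a field `L` which contains `F_p(t)` -/
noncomputable def tt (p : ℕ) [Fact p.Prime] (L : Type) [Field L] [Algebra (RatFunc (ZMod p)) L] : L :=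
  algebraMap (RatFunc (ZMod p)) L RatFunc.X

/-- The axioms `T`: in the field `L`, which contains `F_p(t)`, with the valuation ring `V` (with the
multiplicatively written valuation of Mathlib) `t` is an element of the largest value below `1`,
and every element of `V` is congruent to an integer modulo the maximal ideal. -/
def Axioms (p : ℕ) [Fact p.Prime] (L : Type) [Field L] [Algebra (RatFunc (ZMod p)) L]
    (V : ValuationSubring L) : Prop :=
  V.valuation (tt p L) < 1 ∧ (∀ x, V.valuation x < 1 → V.valuation x ≤ V.valuation (tt p L)) ∧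
    ∀ x ∈ V, ∃ a : ℤ, V.valuation (x - a) < 1

open Pool.Agent.H895.AP

theorem ev_sum_fin {E M : Type} [Field E] [Field M] [Algebra E M] (p : ℕ) {d : ℕ} (a : Fin d → E)
    (x : M) : ev p (∑ i : Fin d, Polynomial.monomial (i : ℕ) (a i)) x =
      ∑ i : Fin d, algebraMap E M (a i) * x ^ p ^ (i : ℕ) := by
  rw [ev_sum]
  exact Finset.sum_congr rfl fun i _ => ev_monomial _ _ _ _

theorem general (p : ℕ) [Fact p.Prime] (E F L : Type) [Field E] [Field F] [Field L] [CharP E p]
    [Algebra E F] [Algebra E L] (t : E) (hb : CommonPBasis p E F t) (O : ValuationSubring L)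
    (hE : ∀ a : E, algebraMap E L a ∈ O) (ρ : O →+* F)
    (hρE : ∀ a : E, ρ ⟨algebraMap E L a, hE a⟩ = algebraMap E F a)
    (hρ : ∀ x : O, O.valuation (x : L) < 1 → ρ x = 0)
    (m n d : ℕ) (a : Fin m → Fin n → Fin d → E) (c : Fin m → O) (x : Fin n → L)
    (hx : ∀ k, ∑ j, ∑ i : Fin d, algebraMap E L (a k j i) * x j ^ p ^ (i : ℕ) = c k) :
    ∃ z : Fin n → F,
      ∀ k, ∑ j, ∑ i : Fin d, algebraMap E F (a k j i) * z j ^ p ^ (i : ℕ) = ρ (c k) := by
  have : CharP F p := charP_of_injective_algebraMap (algebraMap E F).injective p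
  have : CharP L p := charP_of_injective_algebraMap (algebraMap E L).injective p
  have hA : ∀ (k : Fin m) (j : Fin n) (i : ℕ), d ≤ i →
      (∑ i : Fin d, Polynomial.monomial (i : ℕ) (a k j i)).coeff i = 0 := by
    intro k j i hi
    rw [Polynomial.finsetSum_coeff]
    refine Finset.sum_eq_zero fun l _ => ?_
    have := l.2
    rw [Polynomial.coeff_monomial, if_neg (by omega)]
  obtain ⟨z, hz⟩ := purity O hE ρ hρE p ⟨hb.1, hb.2.1, hb.2.2⟩ hρ _ (fun _ => d) le_rfl
    (fun k j => ∑ i : Fin d, Polynomial.monomial (i : ℕ) (a k j i)) hA c x (fun k => by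
      rw [← hx k]
      exact Finset.sum_congr rfl fun j _ => ev_sum_fin p _ _)
  refine ⟨z, fun k => ?_⟩
  rw [← hz k]
  exact Finset.sum_congr rfl fun j _ => (ev_sum_fin p _ _).symm

theorem basis (p : ℕ) [Fact p.Prime] :
    CommonPBasis p (RatFunc (ZMod p)) (LaurentSeries (ZMod p)) RatFunc.X :=
  ⟨(pbasis p).spanE, (pbasis p).spanF, (pbasis p).ind⟩

theorem model (p : ℕ) [Fact p.Prime] : ∃ V : ValuationSubring (LaurentSeries (ZMod p)),
    (∀ f, f ∈ V ↔ ∃ g : PowerSeries (ZMod p), HahnSeries.ofPowerSeries ℤ (ZMod p) g = f) ∧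
      Axioms p (LaurentSeries (ZMod p)) V := by
  let V : ValuationSubring (LaurentSeries (ZMod p)) :=
    (Valued.v (R := LaurentSeries (ZMod p)) (Γ₀ := ℤᵐ⁰)).valuationSubring
  have hV : ∀ f, f ∈ V ↔ ∃ g : PowerSeries (ZMod p), HahnSeries.ofPowerSeries ℤ (ZMod p) g = f := by
    intro f
    exact LaurentSeries.val_le_one_iff_eq_coe (ZMod p) f
  have ht : tt p (LaurentSeries (ZMod p)) = HahnSeries.ofPowerSeries ℤ (ZMod p) PowerSeries.X := by
    rw [HahnSeries.ofPowerSeries_X]
    exact RatFunc.coe_X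
  have hX : HahnSeries.ofPowerSeries ℤ (ZMod p) PowerSeries.X ≠ 0 := by
    rw [Ne, map_eq_zero_iff _ HahnSeries.ofPowerSeries_injective]
    exact PowerSeries.X_ne_zero
  -- t has value < 1
  have h1 : V.valuation (tt p (LaurentSeries (ZMod p))) < 1 := by
    rw [← not_le]
    intro h
    have h2 : V.valuation (tt p (LaurentSeries (ZMod p)))⁻¹ ≤ 1 := by
      rw [map_inv₀]
      exact inv_le_one_of_one_le₀ h
    rw [V.valuation_le_one_iff, hV] at h2
    obtain ⟨g, hg⟩ := h2
    have h3 : HahnSeries.ofPowerSeries ℤ (ZMod p) (PowerSeries.X * g) =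
        HahnSeries.ofPowerSeries ℤ (ZMod p) 1 := by
      rw [map_mul, hg, ht, mul_inv_cancel₀ hX, map_one]
    have h4 := HahnSeries.ofPowerSeries_injective h3
    have h5 := congrArg (PowerSeries.constantCoeff) h4
    simp at h5
  -- power series with constant coefficient 0
  have h2 : ∀ g : PowerSeries (ZMod p), PowerSeries.constantCoeff g = 0 →
      V.valuation (HahnSeries.ofPowerSeries ℤ (ZMod p) g) ≤ V.valuation (tt p (LaurentSeries (ZMod p))) := by
    intro g hg
    obtain ⟨k, rfl⟩ := PowerSeries.X_dvd_iff.2 hg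
    rw [map_mul, map_mul, ← ht]
    have : V.valuation (HahnSeries.ofPowerSeries ℤ (ZMod p) k) ≤ 1 := by
      rw [V.valuation_le_one_iff, hV]
      exact ⟨k, rfl⟩
    calc _ ≤ V.valuation (tt p (LaurentSeries (ZMod p))) * 1 := by gcongr
      _ = _ := mul_one _
  refine ⟨V, hV, h1, ?_, ?_⟩
  · intro x hx
    obtain ⟨g, rfl⟩ := (hV x).1 ((V.valuation_le_one_iff x).1 hx.le)
    refine h2 g ?_
    by_contra hg
    obtain ⟨k, hk⟩ : ∃ k, g * k = 1 := ⟨g⁻¹, PowerSeries.mul_inv_cancel g hg⟩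
    have h3 : V.valuation (HahnSeries.ofPowerSeries ℤ (ZMod p) g) *
        V.valuation (HahnSeries.ofPowerSeries ℤ (ZMod p) k) = 1 := by
      rw [← map_mul, ← map_mul, hk, map_one, map_one]
    have h4 : V.valuation (HahnSeries.ofPowerSeries ℤ (ZMod p) k) ≤ 1 := by
      rw [V.valuation_le_one_iff, hV]
      exact ⟨k, rfl⟩
    have h5 : V.valuation (HahnSeries.ofPowerSeries ℤ (ZMod p) g) *
        V.valuation (HahnSeries.ofPowerSeries ℤ (ZMod p) k) < 1 := by
      calc _ ≤ V.valuation (HahnSeries.ofPowerSeries ℤ (ZMod p) g) * 1 := by gcongr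
        _ < 1 := by rw [mul_one]; exact hx
    exact absurd h3 h5.ne
  · intro x hx
    obtain ⟨g, rfl⟩ := (hV x).1 hx
    refine ⟨((PowerSeries.constantCoeff g).val : ℤ), lt_of_le_of_lt ?_ h1⟩
    have h3 : HahnSeries.ofPowerSeries ℤ (ZMod p) g -
        (((PowerSeries.constantCoeff g).val : ℤ) : LaurentSeries (ZMod p)) =
        HahnSeries.ofPowerSeries ℤ (ZMod p)
          (g - (((PowerSeries.constantCoeff g).val : ℤ) : PowerSeries (ZMod p))) := by
      rw [map_sub, map_intCast]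
    rw [h3]
    refine h2 _ ?_
    rw [map_sub, map_intCast]
    simp

theorem tF (p : ℕ) [Fact p.Prime] (N : ℤ) : tt p (LaurentSeries (ZMod p)) ^ N =
    (HahnSeries.single N (1 : ZMod p) : LaurentSeries (ZMod p)) := by
  have h : tt p (LaurentSeries (ZMod p)) = HahnSeries.single (1 : ℤ) (1 : ZMod p) := RatFunc.coe_X
  rw [h]
  exact (RatFunc.single_zpow N).symm

theorem coeff_neg (p : ℕ) [Fact p.Prime] (N i : ℤ) (h : i < N) (g : PowerSeries (ZMod p)) :
    (tt p (LaurentSeries (ZMod p)) ^ N * HahnSeries.ofPowerSeries ℤ (ZMod p) g).coeff i = 0 := by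
  rw [tF, HahnSeries.coeff_single_mul, one_mul]
  exact (PowerSeries.coeff_coe g (i - N)).trans (if_pos (by omega))

/-- the case of `x` in the coarse valuation ring -/
theorem window (p : ℕ) [Fact p.Prime] (L : Type) [Field L] [Algebra (RatFunc (ZMod p)) L]
    (V O : ValuationSubring L) (hE : ∀ a : RatFunc (ZMod p), algebraMap (RatFunc (ZMod p)) L a ∈ O)
    (ρ : O →+* LaurentSeries (ZMod p))
    (hOV : ∀ x, x ∈ O ↔ ∃ N : ℕ, algebraMap (RatFunc (ZMod p)) L RatFunc.X ^ N * x ∈ V)
    (hρE : ∀ a, ρ ⟨algebraMap (RatFunc (ZMod p)) L a, hE a⟩ =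
      algebraMap (RatFunc (ZMod p)) (LaurentSeries (ZMod p)) a)
    (hVO : ∀ x ∈ V, x ∈ O) (Ψ : V → PowerSeries (ZMod p))
    (hΨ : ∀ x : V, ρ ⟨x, hVO x x.2⟩ = HahnSeries.ofPowerSeries ℤ (ZMod p) (Ψ x))
    (hdvd : ∀ (x : V) (N : ℕ), PowerSeries.X ^ N ∣ Ψ x ↔
          ∃ y ∈ V, (x : L) = algebraMap (RatFunc (ZMod p)) L RatFunc.X ^ N * y)
    (o : O) (N : ℤ) : (∃ z ∈ V, (o : L) = tt p L ^ N * z) ↔
      ∃ g : PowerSeries (ZMod p), ρ o =
        tt p (LaurentSeries (ZMod p)) ^ N * HahnSeries.ofPowerSeries ℤ (ZMod p) g := by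
  have ht0 : tt p L ≠ 0 := (map_ne_zero _).2 RatFunc.X_ne_zero
  have htN : ∀ N : ℤ, tt p L ^ N ∈ O := by
    intro N
    have h := hE (RatFunc.X ^ N)
    rw [map_zpow₀] at h
    exact h
  have hρN : ∀ N : ℤ, ρ ⟨tt p L ^ N, htN N⟩ = tt p (LaurentSeries (ZMod p)) ^ N := by
    intro N
    have h1 : (⟨tt p L ^ N, htN N⟩ : O) = ⟨algebraMap (RatFunc (ZMod p)) L (RatFunc.X ^ N), hE _⟩ :=
      Subtype.ext (map_zpow₀ _ _ _).symm
    rw [h1, hρE, map_zpow₀]
    rfl
  constructor
  · rintro ⟨z, hz, h⟩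
    refine ⟨Ψ ⟨z, hz⟩, ?_⟩
    rw [← hΨ ⟨z, hz⟩, ← hρN, ← map_mul]
    congr 1
    exact Subtype.ext h
  · rintro ⟨g, hg⟩
    set o' : O := ⟨tt p L ^ (-N), htN (-N)⟩ * o with ho'
    have h1 : ρ o' = HahnSeries.ofPowerSeries ℤ (ZMod p) g := by
      have ht1 : tt p (LaurentSeries (ZMod p)) ≠ 0 := (map_ne_zero _).2 RatFunc.X_ne_zero
      rw [ho', map_mul, hρN, hg, ← mul_assoc, ← zpow_add₀ ht1, neg_add_cancel, zpow_zero, one_mul]
    have h2 : (o : L) = tt p L ^ N * (o' : L) := by
      show (o : L) = tt p L ^ N * (tt p L ^ (-N) * (o : L))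
      rw [← mul_assoc, ← zpow_add₀ ht0, add_neg_cancel, zpow_zero, one_mul]
    refine ⟨o', ?_, h2⟩
    obtain ⟨K, hK⟩ := (hOV o').1 o'.2
    have h3 : HahnSeries.ofPowerSeries ℤ (ZMod p) (Ψ ⟨_, hK⟩) =
        HahnSeries.ofPowerSeries ℤ (ZMod p) (PowerSeries.X ^ K * g) := by
      rw [← hΨ ⟨_, hK⟩, map_mul, ← h1, map_pow]
      have h4 : (⟨algebraMap (RatFunc (ZMod p)) L RatFunc.X ^ K * (o' : L), hVO _ hK⟩ : O) =
          (⟨algebraMap (RatFunc (ZMod p)) L RatFunc.X, hE _⟩ : O) ^ K * o' := Subtype.ext rfl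
      have h5 : HahnSeries.ofPowerSeries ℤ (ZMod p) PowerSeries.X =
          algebraMap (RatFunc (ZMod p)) (LaurentSeries (ZMod p)) RatFunc.X := by
        rw [HahnSeries.ofPowerSeries_X]
        exact RatFunc.coe_X.symm
      rw [h5, ← hρE]
      exact (congrArg ρ h4).trans ((map_mul ρ _ _).trans (by rw [map_pow]))
    have h4 : PowerSeries.X ^ K ∣ Ψ ⟨_, hK⟩ := ⟨g, HahnSeries.ofPowerSeries_injective h3⟩
    obtain ⟨v, hv, h5⟩ := (hdvd _ K).1 h4
    have h6 : (o' : L) = v := by
      have h7 : algebraMap (RatFunc (ZMod p)) L RatFunc.X ^ K ≠ 0 := pow_ne_zero _ ht0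
      exact mul_left_cancel₀ h7 h5
    rw [h6]
    exact hv

theorem second (p : ℕ) [Fact p.Prime] (L : Type) [Field L] [Algebra (RatFunc (ZMod p)) L]
    (V : ValuationSubring L) (hax : Axioms p L V) (m n d l s w M : ℕ)
    (a : Fin m → Fin n → Fin d → RatFunc (ZMod p)) (b : Fin w → Fin n → Fin d → RatFunc (ZMod p))
    (c : Fin m → MvPolynomial (Fin l) (RatFunc (ZMod p)))
    (h : Fin s → MvPolynomial (Fin l) (RatFunc (ZMod p)))
    (x : Fin n → L) (y : Fin l → L) (hy : ∀ i, y i ∈ V)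
    (hx : ∀ k, ∑ j, ∑ i : Fin d, algebraMap _ L (a k j i) * x j ^ p ^ (i : ℕ) =
      MvPolynomial.aeval y (c k))
    (hh : ∀ r, MvPolynomial.aeval y (h r) = 0) :
    ∃ (x' : Fin n → LaurentSeries (ZMod p)) (y' : Fin l → PowerSeries (ZMod p)),
      (∀ k, ∑ j, ∑ i : Fin d, algebraMap _ (LaurentSeries (ZMod p)) (a k j i) *
        x' j ^ p ^ (i : ℕ) =
          MvPolynomial.aeval (fun i => HahnSeries.ofPowerSeries ℤ (ZMod p) (y' i)) (c k)) ∧
      (∀ r, MvPolynomial.aeval (fun i => HahnSeries.ofPowerSeries ℤ (ZMod p) (y' i))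
        (h r) = 0) ∧
      (∀ i N, (∃ z ∈ V, y i = tt p L ^ N * z) ↔ PowerSeries.X ^ N ∣ y' i) ∧
      ∀ (r : Fin w) (N : ℤ), -(M : ℤ) ≤ N →
        ((∃ z ∈ V, ∑ j, ∑ i : Fin d, algebraMap _ L (b r j i) * x j ^ p ^ (i : ℕ) =
            tt p L ^ N * z) ↔
          ∃ g : PowerSeries (ZMod p), ∑ j, ∑ i : Fin d,
            algebraMap _ (LaurentSeries (ZMod p)) (b r j i) * x' j ^ p ^ (i : ℕ) =
              tt p (LaurentSeries (ZMod p)) ^ N * HahnSeries.ofPowerSeries ℤ (ZMod p) g) := by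
  classical
  have : CharP (LaurentSeries (ZMod p)) p := charP_of_injective_algebraMap
    (algebraMap (RatFunc (ZMod p)) (LaurentSeries (ZMod p))).injective p
  have : CharP L p := charP_of_injective_algebraMap (algebraMap (RatFunc (ZMod p)) L).injective p
  obtain ⟨O, hE, ρ, hOV, hρE, hρ, hVO, Ψ, hΨ, hdvd⟩ := exists_place p V hax.2.2 hax.1 hax.2.1
  have hyO : ∀ i, y i ∈ O := fun i => hVO _ (hy i)
  let y' : Fin l → PowerSeries (ZMod p) := fun i => Ψ ⟨y i, hy i⟩
  -- polynomials at `y`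
  have hpol : ∀ f : MvPolynomial (Fin l) (RatFunc (ZMod p)), ∃ h : MvPolynomial.aeval y f ∈ O,
      ρ ⟨MvPolynomial.aeval y f, h⟩ =
        MvPolynomial.aeval (fun i => HahnSeries.ofPowerSeries ℤ (ZMod p) (y' i)) f := by
    intro f
    induction f using MvPolynomial.induction_on with
    | C b =>
      simp only [MvPolynomial.aeval_C]
      exact ⟨hE b, hρE b⟩
    | add f g hf hg =>
      obtain ⟨h1, h2⟩ := hf
      obtain ⟨h3, h4⟩ := hg
      simp only [map_add]
      refine ⟨O.add_mem _ _ h1 h3, ?_⟩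
      rw [← h2, ← h4]
      exact map_add ρ ⟨_, h1⟩ ⟨_, h3⟩
    | mul_X f i hf =>
      obtain ⟨h1, h2⟩ := hf
      simp only [map_mul, MvPolynomial.aeval_X]
      refine ⟨O.mul_mem _ _ h1 (hyO i), ?_⟩
      have h3 : ρ ⟨y i, hyO i⟩ = HahnSeries.ofPowerSeries ℤ (ZMod p) (y' i) := hΨ ⟨y i, hy i⟩
      rw [← h2, ← h3]
      exact map_mul ρ ⟨_, h1⟩ ⟨_, hyO i⟩
  choose hO hval using hpol
  let P : (Fin n → Fin d → RatFunc (ZMod p)) → Fin n → Polynomial (RatFunc (ZMod p)) :=
    fun a j => ∑ i : Fin d, Polynomial.monomial (i : ℕ) (a j i)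
  have hP : ∀ a j i, d ≤ i → (P a j).coeff i = 0 := by
    intro a j i hi
    show (∑ i : Fin d, Polynomial.monomial (i : ℕ) (a j i)).coeff i = 0
    rw [Polynomial.finsetSum_coeff]
    refine Finset.sum_eq_zero fun l _ => ?_
    have := l.2
    rw [Polynomial.coeff_monomial, if_neg (by omega)]
  have hevL : ∀ a, ∑ j, ev p (P a j) (x j) =
      ∑ j, ∑ i : Fin d, algebraMap _ L (a j i) * x j ^ p ^ (i : ℕ) := fun a =>
    Finset.sum_congr rfl fun j _ => ev_sum_fin p _ _
  have hevF : ∀ a (z : Fin n → LaurentSeries (ZMod p)), ∑ j, ev p (P a j) (z j) =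
      ∑ j, ∑ i : Fin d, algebraMap _ (LaurentSeries (ZMod p)) (a j i) * z j ^ p ^ (i : ℕ) :=
    fun a z => Finset.sum_congr rfl fun j _ => ev_sum_fin p _ _
  let bx : Fin w → L := fun r => ∑ j, ev p (P (b r) j) (x j)
  obtain ⟨z, hz1, hz2⟩ := purity2 O hE ρ hρE p ⟨(basis p).1, (basis p).2.1, (basis p).2.2⟩ hρ
    (κ := Fin m ⊕ {r : Fin w // bx r ∈ O}) (W := {r : Fin w // bx r ∉ O})
    (fun _ f => ∃ i : ℤ, i < -(M : ℤ) ∧ f.coeff i ≠ 0)
    (fun D a hD => large n _ (-(M : ℤ)) D a hD) _ (fun _ => d) le_rfl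
    (Sum.elim (fun k => P (a k)) fun r => P (b r.1))
    (by
      rintro (k | r) j i hi
      · exact hP _ j i hi
      · exact hP _ j i hi)
    (Sum.elim (fun k => ⟨_, hO (c k)⟩) fun r => ⟨bx r.1, r.2⟩) x
    (by
      rintro (k | r)
      · exact (hevL (a k)).trans (hx k)
      · rfl)
    (fun r => P (b r.1)) (fun r => r.2)
  refine ⟨z, y', fun k => ?_, fun r => ?_, fun i N => ?_, fun r N hN => ?_⟩
  · rw [← hevF, ← hval]
    exact hz1 (Sum.inl k)
  · rw [← hval (h r)]
    have h1 : (⟨MvPolynomial.aeval y (h r), hO (h r)⟩ : O) = 0 := Subtype.ext (hh r)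
    rw [h1, map_zero]
  · exact (hdvd ⟨y i, hy i⟩ N).symm
  · rw [← hevL, ← hevF]
    by_cases hr : bx r ∈ O
    · have h1 : ∑ j, ev p (P (b r) j) (z j) = ρ ⟨bx r, hr⟩ := hz1 (Sum.inr ⟨r, hr⟩)
      rw [h1]
      exact window p L V O hE ρ hOV hρE hVO Ψ hΨ hdvd ⟨bx r, hr⟩ N
    · constructor
      · rintro ⟨v, hv, h1⟩
        refine absurd ?_ hr
        have h2 : tt p L ^ N ∈ O := by
          have h3 := hE (RatFunc.X ^ N)
          rw [map_zpow₀] at h3
          exact h3
        show ∑ j, ev p (P (b r) j) (x j) ∈ O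
        rw [h1]
        exact O.mul_mem _ _ h2 (hVO _ hv)
      · rintro ⟨g, hg⟩
        obtain ⟨i, hi, h1⟩ := hz2 ⟨r, hr⟩
        refine absurd ?_ h1
        show (∑ j, ev p (P (b r) j) (z j)).coeff i = 0
        rw [hg]
        exact coeff_neg p N i (by omega) g

theorem result :
    -- (1)
    (∀ (p : ℕ) [Fact p.Prime] (E F L : Type) [Field E] [Field F] [Field L] [CharP E p]
      [Algebra E F] [Algebra E L] (t : E), CommonPBasis p E F t →
      ∀ (O : ValuationSubring L) (hE : ∀ a : E, algebraMap E L a ∈ O) (ρ : O →+* F),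
        (∀ a : E, ρ ⟨algebraMap E L a, hE a⟩ = algebraMap E F a) →
        (∀ x : O, O.valuation (x : L) < 1 → ρ x = 0) →
        ∀ (m n d : ℕ) (a : Fin m → Fin n → Fin d → E) (c : Fin m → O) (x : Fin n → L),
          (∀ k, ∑ j, ∑ i : Fin d, algebraMap E L (a k j i) * x j ^ p ^ (i : ℕ) = c k) →
          ∃ z : Fin n → F,
            ∀ k, ∑ j, ∑ i : Fin d, algebraMap E F (a k j i) * z j ^ p ^ (i : ℕ) = ρ (c k)) ∧
    -- (2)
    (∀ (p : ℕ) [Fact p.Prime],
      CommonPBasis p (RatFunc (ZMod p)) (LaurentSeries (ZMod p)) RatFunc.X ∧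
      (∃ V : ValuationSubring (LaurentSeries (ZMod p)),
        (∀ f, f ∈ V ↔ ∃ g : PowerSeries (ZMod p), HahnSeries.ofPowerSeries ℤ (ZMod p) g = f) ∧
          Axioms p (LaurentSeries (ZMod p)) V) ∧
      ∀ (L : Type) [Field L] [Algebra (RatFunc (ZMod p)) L] (V : ValuationSubring L),
        Axioms p L V →
        ∀ (m n d l s w M : ℕ) (a : Fin m → Fin n → Fin d → RatFunc (ZMod p))
          (b : Fin w → Fin n → Fin d → RatFunc (ZMod p))
          (c : Fin m → MvPolynomial (Fin l) (RatFunc (ZMod p)))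
          (h : Fin s → MvPolynomial (Fin l) (RatFunc (ZMod p)))
          (x : Fin n → L) (y : Fin l → L), (∀ i, y i ∈ V) →
          (∀ k, ∑ j, ∑ i : Fin d, algebraMap _ L (a k j i) * x j ^ p ^ (i : ℕ) =
            MvPolynomial.aeval y (c k)) →
          (∀ r, MvPolynomial.aeval y (h r) = 0) →
          ∃ (x' : Fin n → LaurentSeries (ZMod p)) (y' : Fin l → PowerSeries (ZMod p)),
            (∀ k, ∑ j, ∑ i : Fin d, algebraMap _ (LaurentSeries (ZMod p)) (a k j i) *
              x' j ^ p ^ (i : ℕ) =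
                MvPolynomial.aeval (fun i => HahnSeries.ofPowerSeries ℤ (ZMod p) (y' i)) (c k)) ∧
            (∀ r, MvPolynomial.aeval (fun i => HahnSeries.ofPowerSeries ℤ (ZMod p) (y' i))
              (h r) = 0) ∧
            (∀ i N, (∃ z ∈ V, y i = tt p L ^ N * z) ↔ PowerSeries.X ^ N ∣ y' i) ∧
            ∀ (r : Fin w) (N : ℤ), -(M : ℤ) ≤ N →
              ((∃ z ∈ V, ∑ j, ∑ i : Fin d, algebraMap _ L (b r j i) * x j ^ p ^ (i : ℕ) =
                  tt p L ^ N * z) ↔
                ∃ g : PowerSeries (ZMod p), ∑ j, ∑ i : Fin d,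
                  algebraMap _ (LaurentSeries (ZMod p)) (b r j i) * x' j ^ p ^ (i : ℕ) =
                    tt p (LaurentSeries (ZMod p)) ^ N * HahnSeries.ofPowerSeries ℤ (ZMod p) g)) := by
  refine ⟨fun p _ E F L _ _ _ _ _ _ t => general p E F L t, fun p _ => ⟨basis p, model p, ?_⟩⟩
  intro L _ _ V hax m n d l s w M a b c h x y hy hx hh
  exact second p L V hax m n d l s w M a b c h x y hy hx hh

end Pool.Agent.Results.MP_db9079_lc.AdditiveSystems
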